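import Pool.Agent.helper80.HM.SpecD

set_option autoImplicit false

namespace Pool.Agent.HM

open Finset Pool.Agent.helper38.Neg Pool.Agent.helper55.NT
open Pool.Agent.LN (HC)

/-- the vertex of a slot -/
def NCF_f {n w s : ℕ} (P Q : Fin s → Fin (n + w + s)) (z : Fin (n + w + s) → Bool) :
    NK n w s → NV n w s
  | Sum.inl i => Sum.inl (i, z i)
  | Sum.inr (Sum.inl g) => Sum.inr (Sum.inl (g, z (P g), z (Q g)))
  | Sum.inr (Sum.inr (Sum.inl c)) => Sum.inr (Sum.inr (Sum.inl c))
  | Sum.inr (Sum.inr (Sum.inr j)) => Sum.inr (Sum.inr (Sum.inr (Sum.inl j)))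

theorem NCF_cls {n w s : ℕ} (P Q : Fin s → Fin (n + w + s)) (z : Fin (n + w + s) → Bool)
    (κ : NK n w s) : ncls (NCF_f P Q z κ) = some κ := by
  rcases κ with i | g | c | j <;> rfl

theorem NCF_con {n w s : ℕ} (P Q : Fin s → Fin (n + w + s)) (φ : Fin s → Bool → Bool → Bool)
    (o : Fin (n + w + s)) (x : Fin n → Bool) (z : Fin (n + w + s) → Bool)
    (hx : ∀ c, z (Fin.castAdd s (Fin.castAdd w c)) = x c)
    (hg : ∀ g, z (Fin.natAdd (n + w) g) = φ g (z (P g)) (z (Q g))) (ho : z o = true)
    (κ κ' : NK n w s) : ncon P Q φ o x (NCF_f P Q z κ) (NCF_f P Q z κ') := by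
  rcases κ with i | g | c | j
  · rcases κ' with i' | g' | c' | j'
    · exact trivial
    · refine ⟨?_, ?_, ?_⟩
      · rintro rfl
        rfl
      · rintro rfl
        rfl
      · rintro rfl
        exact hg g'
    · rcases c' with _ | c'
      · show i = o → z i = true
        rintro rfl
        exact ho
      · show i = Fin.castAdd s (Fin.castAdd w c') → z i = x c'
        rintro rfl
        exact hx c'
    · exact trivial
  · rcases κ' with i' | g' | c' | j' <;> exact trivial
  · rcases κ' with i' | g' | c' | j' <;> exact trivial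
  · rcases κ' with i' | g' | c' | j' <;> exact trivial

theorem NCF : NCF_stmt := by
  intro n w s e P Q φ o x z hx hg ho
  classical
  have hinj : Function.Injective (fun κ : NK n w s => e (NCF_f P Q z κ)) := by
    intro κ κ' h
    have h1 : NCF_f P Q z κ = NCF_f P Q z κ' := e.injective h
    have h2 := congrArg ncls h1
    rw [NCF_cls, NCF_cls] at h2
    exact Option.some.inj h2
  refine ⟨Finset.univ.image (fun κ : NK n w s => e (NCF_f P Q z κ)), ?_, ?_⟩
  · rw [Finset.card_image_of_injective _ hinj, Finset.card_univ]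
    have h1 : Fintype.card (NK n w s) = (n + w + s) + (s + ((n + 1) + 2 * s)) := by
      simp only [Fintype.card_sum, Fintype.card_fin, Fintype.card_option]
    rw [h1]
    unfold nM
    omega
  · intro u hu v hv huv
    obtain ⟨κ, -, rfl⟩ := Finset.mem_image.1 hu
    obtain ⟨κ', -, rfl⟩ := Finset.mem_image.1 hv
    have hne : κ ≠ κ' := by
      rintro rfl
      exact lt_irrefl _ huv
    have hadj : nadj P Q φ o x (NCF_f P Q z κ) (NCF_f P Q z κ') := by
      refine ⟨?_, ?_, ?_, NCF_con P Q φ o x z hx hg ho κ κ', NCF_con P Q φ o x z hx hg ho κ' κ⟩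
      · rw [NCF_cls]
        exact Option.some_ne_none _
      · rw [NCF_cls]
        exact Option.some_ne_none _
      · rw [NCF_cls, NCF_cls]
        exact fun h => hne (Option.some.inj h)
    show bl (nadj P Q φ o x (e.symm (finProdFinEquiv.symm (finProdFinEquiv
      (e (NCF_f P Q z κ), e (NCF_f P Q z κ')))).1) (e.symm (finProdFinEquiv.symm (finProdFinEquiv
      (e (NCF_f P Q z κ), e (NCF_f P Q z κ')))).2)) = true
    rw [Equiv.symm_apply_apply]
    show bl (nadj P Q φ o x (e.symm (e (NCF_f P Q z κ))) (e.symm (e (NCF_f P Q z κ')))) = true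
    rw [Equiv.symm_apply_apply, Equiv.symm_apply_apply]
    exact if_pos hadj

end Pool.Agent.HM
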