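import Pool.Agent.helper80.HM.SpecA

set_option autoImplicit false

namespace Pool.Agent.HM

open Finset Pool.Agent.helper33.Mod

theorem GBP (hCOND : COND_stmt) (hINJ : INJ_stmt) (hEET : EET_stmt) : GBP_stmt := by
  intro M a t S k c σ l L N g lv d U T K β' F i h0 hPar hApp hUT hT hlv hKF hKl hKs hI
  obtain ⟨e1, e2, e3, -⟩ := hEET hPar
  set P : (Fin M → Fin c) → Prop := fun h =>
    Inj h K ∧ g i (orI (gV (U ∪ T) h) β') = false with hP
  have hDep : Dep (U ∪ T) P := by
    intro h h' hh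
    have h1 : Inj h K ↔ Inj h' K := inj_congr (fun v hv => hh v (hKs hv))
    have h2 : gV (U ∪ T) h = gV (U ∪ T) h' := gV_congr hh
    show (Inj h K ∧ g i (orI (gV (U ∪ T) h) β') = false) ↔
      (Inj h' K ∧ g i (orI (gV (U ∪ T) h') β') = false)
    rw [h1, h2]
  have hPle : cn P ≤ S * ET M c L N := by
    refine le_trans (cn_mono (fun h hh => ?_)) hApp.neg
    exact ⟨i, hlv, ⟨K, hKF, hKl, hh.1⟩, hh.2⟩
  have hc0 : (0 : ℝ) ≤ (c : ℝ) ^ T.card := by positivity
  have h1 : cn (fun h => P (mix U h0 h)) ≤ 1 / 8 * (c : ℝ) ^ M := by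
    refine (hCOND U T P h0 e3 hUT hDep).trans ?_
    exact (mul_le_mul_of_nonneg_left hPle hc0).trans (e1 T.card hT)
  have h2 : cn (fun h => ¬ Inj (mix U h0 h) K) ≤ 1 / 8 * (c : ℝ) ^ M := by
    refine (hINJ U T K h0 e3 hUT hKs hI).trans ?_
    apply mul_le_mul_of_nonneg_right _ (by positivity)
    refine le_trans ?_ e2
    have hcR : (0 : ℝ) < c := by exact_mod_cast e3
    apply div_le_div_of_nonneg_right _ (by positivity)
    have hcard : ((K ∪ T).card : ℝ) ≤ 2 * (l : ℝ) := by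
      have := Finset.card_union_le K T
      exact_mod_cast (by omega : (K ∪ T).card ≤ 2 * l)
    exact pow_le_pow_left₀ (Nat.cast_nonneg _) hcard 2
  have h3 : cn (fun h => g i (orI (gV (U ∪ T) (mix U h0 h)) β') = false) ≤
      cn (fun h => ¬ Inj (mix U h0 h) K) + cn (fun h => P (mix U h0 h)) := by
    refine le_trans (cn_mono (fun h hh => ?_)) (cn_or _ _)
    by_cases hin : Inj (mix U h0 h) K
    · exact Or.inr ⟨hin, hh⟩
    · exact Or.inl hin
  linarith

end Pool.Agent.HM
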